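import Mathlib
import Pool.Agent.W856.Corner9
import Pool.Agent.W856.Corner10

/-!
Corner-free sets whose lines are decided by Boolean functions of few sums modulo `p` of (the
indicator functions of) exponentially many varieties of bounded degree.
-/

namespace Pool.Agent.H281C

open Finset Pool.Agent.W856.Corner

open scoped Classical in
/-- The set `Z` consists of the common zeros on the cube of polynomials of degree at most `k` over
`Z/p` in the coordinates, which are read as the elements `0` and `1` of `Z/p`; the number of the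
polynomials is arbitrary. -/
def IsVariety (p k : ℕ) {n : ℕ} (Z : Set (V n)) : Prop :=
  ∃ Q : Set (MvPolynomial (Fin n) (ZMod p)), (∀ P ∈ Q, P.totalDegree ≤ k) ∧
    ∀ y : V n, y ∈ Z ↔
      ∀ P ∈ Q, MvPolynomial.eval (fun i => if y i = 1 then (1 : ZMod p) else 0) P = 0

open scoped Classical in
/-- The set `S` is decided by a Boolean function of `q` weighted sums modulo `p` of the indicator
functions of `N` varieties of degree at most `k`. -/
def ModSum (p k q N : ℕ) {n : ℕ} (S : Set (V n)) : Prop :=
  ∃ (Z : Fin N → Set (V n)) (c : Fin q → Fin N → ZMod p) (R : Set (Fin q → ZMod p)),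
    (∀ i, IsVariety p k (Z i)) ∧
    ∀ y, y ∈ S ↔ (fun j => ∑ i, c j i * (if y ∈ Z i then 1 else 0)) ∈ R

variable {n p k q N T : ℕ} [Fact p.Prime]

/-- a polynomial of degree at most `k` gives a function in `LK k` -/
lemma poly_mem (P : MvPolynomial (Fin n) (ZMod p)) (hP : P.totalDegree ≤ k) :
    (fun y : V n => MvPolynomial.eval (fun i => if y i = 1 then (1 : ZMod p) else 0) P) ∈
      LK (ZMod p) n k := by
  have h1 : (fun y : V n => MvPolynomial.eval (fun i => if y i = 1 then (1 : ZMod p) else 0) P) =
      ∑ m ∈ P.support, P.coeff m • mon (n := n) (ZMod p) m.support := by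
    funext y
    have h2 : MvPolynomial.eval (fun i => if y i = 1 then (1 : ZMod p) else 0) P =
      MvPolynomial.eval (fun i => bit (ZMod p) y i) P := rfl
    rw [h2, MvPolynomial.eval_eq]
    simp only [Finset.sum_apply, Pi.smul_apply, smul_eq_mul]
    refine Finset.sum_congr rfl fun m _ => ?_
    congr 1
    unfold mon
    exact Finset.prod_congr rfl fun i hi => bit_pow y i (Finsupp.mem_support_iff.1 hi)
  rw [h1]
  refine Submodule.sum_mem _ fun m hm => Submodule.smul_mem _ _ (mon_mem _ ?_)
  have h1 := MvPolynomial.le_totalDegree hm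
  have h2 : m.support.card ≤ m.sum fun _ e => e := by
    rw [Finsupp.sum, Finset.card_eq_sum_ones]
    exact Finset.sum_le_sum fun i hi => Nat.one_le_iff_ne_zero.2 (Finsupp.mem_support_iff.1 hi)
  exact h2.trans (h1.trans hP)

/-- a nonzero linear form vanishes on at most half of the space -/
lemma ker_half' {ι : Type} [Fintype ι] [DecidableEq ι] (e : ι → ZMod p) (h : ∃ j, e j ≠ 0) :
    2 * (univ.filter fun r : ι → ZMod p => ∑ j, r j * e j = 0).card ≤
      Fintype.card (ι → ZMod p) := by
  classical
  obtain ⟨j0, he⟩ := h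
  have h1 : (univ.filter fun r : ι → ZMod p => ∑ j, r j * e j = 0).card ≤
      (univ.filter fun r : ι → ZMod p => ¬ ∑ j, r j * e j = 0).card := by
    refine Finset.card_le_card_of_injOn (fun r => r + Pi.single j0 1) ?_ ?_
    · intro r hr
      rw [Finset.mem_coe, Finset.mem_filter] at hr ⊢
      refine ⟨Finset.mem_univ _, ?_⟩
      have h2 : ∑ j, (r + Pi.single j0 1 : ι → ZMod p) j * e j =
          ∑ j, r j * e j + e j0 := by
        simp only [Pi.add_apply, add_mul, Finset.sum_add_distrib]
        congr 1
        rw [Finset.sum_eq_single j0]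
        · simp
        · intro j _ hj
          rw [Pi.single_eq_of_ne hj, zero_mul]
        · intro h; exact absurd (Finset.mem_univ _) h
      show ¬ ∑ j, (r + Pi.single j0 1 : ι → ZMod p) j * e j = 0
      rw [h2, hr.2, zero_add]
      exact he
    · intro r _ r' _ hrr
      exact add_right_cancel hrr
  have h2 := Finset.card_filter_add_card_filter_not (s := (univ : Finset (ι → ZMod p)))
    (fun r => ∑ j, r j * e j = 0)
  rw [Finset.card_univ] at h2
  omega

open scoped Classical in
/-- One-sided approximation of the indicator function of a variety. -/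
theorem approx_variety {Z : Set (V n)} (hZ : IsVariety p k Z) (t : ℕ) :
    ∃ g ∈ LK (ZMod p) n (t * ((p - 1) * k)),
      (univ.filter fun y => g y ≠ if y ∈ Z then 1 else 0).card * 2 ^ t ≤ 2 ^ n := by
  obtain ⟨Q, hQ, hZ⟩ := hZ
  -- a finite family of polynomials
  have hsel : ∀ x : V n, ∃ P : MvPolynomial (Fin n) (ZMod p), P.totalDegree ≤ k ∧
      (∀ y ∈ Z, MvPolynomial.eval (fun i => if y i = 1 then (1 : ZMod p) else 0) P = 0) ∧
      (x ∉ Z → MvPolynomial.eval (fun i => if x i = 1 then (1 : ZMod p) else 0) P ≠ 0) := by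
    intro x
    by_cases hx : x ∈ Z
    · exact ⟨0, by simp, by simp, fun h => absurd hx h⟩
    · have h1 := hx
      rw [hZ] at h1
      push Not at h1
      obtain ⟨P, hP, hPx⟩ := h1
      exact ⟨P, hQ P hP, fun y hy => (hZ y).1 hy P hP, fun _ => hPx⟩
  choose P hP1 hP2 hP3 using hsel
  set f : V n → V n → ZMod p := fun x y =>
    MvPolynomial.eval (fun i => if y i = 1 then (1 : ZMod p) else 0) (P x) with hf
  have hfm : ∀ x, f x ∈ LK (ZMod p) n k := fun x => poly_mem (P x) (hP1 x)
  let g : (Fin t → V n → ZMod p) → V n → ZMod p := fun w =>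
    ∏ τ : Fin t, (1 - (∑ x, w τ x • f x) ^ (p - 1))
  have hg : ∀ w, g w ∈ LK (ZMod p) n (t * ((p - 1) * k)) := by
    intro w
    have h3 := LK_prod (K := ZMod p) (n := n) (Finset.univ : Finset (Fin t))
      (fun _ => (p - 1) * k) (fun τ => 1 - (∑ x, w τ x • f x) ^ (p - 1)) (fun τ _ => by
        refine Submodule.sub_mem _ (LK_one _) (LK_pow _ ?_)
        exact Submodule.sum_mem _ fun j _ => Submodule.smul_mem _ _ (hfm j))
    simpa using h3
  have hval : ∀ w y, g w y = if ∀ τ, ∑ x, w τ x * f x y = 0 then 1 else 0 := by
    intro w y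
    have h2 : ∀ τ : Fin t, (1 - (∑ x, w τ x • f x) ^ (p - 1) : V n → ZMod p) y =
        if ∑ x, w τ x * f x y = 0 then (1 : ZMod p) else 0 := by
      intro τ
      rw [fermat, Pi.sub_apply, Pi.pow_apply, Pi.one_apply, Finset.sum_apply]
      simp only [Pi.smul_apply, smul_eq_mul]
    show (∏ τ : Fin t, (1 - (∑ x, w τ x • f x) ^ (p - 1))) y = _
    rw [Finset.prod_apply, Finset.prod_congr rfl fun τ _ => h2 τ]
    split_ifs with h
    · exact Finset.prod_eq_one fun τ _ => if_pos (h τ)
    · push Not at h
      obtain ⟨τ, hτ⟩ := h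
      exact Finset.prod_eq_zero (Finset.mem_univ τ) (if_neg hτ)
  -- the number of bad choices for a point
  have hbad : ∀ y, (univ.filter fun w => g w y ≠ if y ∈ Z then 1 else 0).card * 2 ^ t ≤
      Fintype.card (Fin t → V n → ZMod p) := by
    intro y
    by_cases hy : y ∈ Z
    · have : (univ.filter fun w => g w y ≠ if y ∈ Z then 1 else 0) = ∅ := by
        rw [Finset.filter_eq_empty_iff]
        intro w _
        rw [hval, if_pos hy, if_pos, not_not]
        intro τ
        refine Finset.sum_eq_zero fun x _ => ?_
        rw [hf]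
        simp only
        rw [hP2 x y hy, mul_zero]
      rw [this]
      simp
    · have h1 : (univ.filter fun w => g w y ≠ if y ∈ Z then 1 else 0) =
          Fintype.piFinset (fun _ : Fin t =>
            univ.filter fun r : V n → ZMod p => ∑ x, r x * f x y = 0) := by
        ext w
        rw [Finset.mem_filter, Fintype.mem_piFinset, hval, if_neg hy]
        simp only [Finset.mem_univ, true_and, Finset.mem_filter]
        constructor
        · intro h τ
          by_contra hc
          exact h (if_neg fun h' => hc (h' τ))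
        · intro h
          rw [if_pos h]
          exact one_ne_zero
      rw [h1, Fintype.card_piFinset_const, Fintype.card_pi_const, ← mul_pow]
      refine Nat.pow_le_pow_left ?_ t
      have := ker_half' (p := p) (fun x => f x y) ⟨y, hP3 y hy⟩
      rw [mul_comm]
      exact this
  -- averaging
  have hsum : ∑ w : Fin t → V n → ZMod p,
      (univ.filter fun y => g w y ≠ if y ∈ Z then 1 else 0).card * 2 ^ t ≤
      ∑ _w : Fin t → V n → ZMod p, 2 ^ n := by
    have e1 : ∑ w : Fin t → V n → ZMod p,
        (univ.filter fun y => g w y ≠ if y ∈ Z then 1 else 0).card * 2 ^ t =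
        ∑ y : V n, (univ.filter fun w => g w y ≠ if y ∈ Z then 1 else 0).card * 2 ^ t := by
      rw [← Finset.sum_mul, ← Finset.sum_mul]
      congr 1
      simp only [Finset.card_filter]
      exact Finset.sum_comm
    rw [e1, Finset.sum_const, Finset.card_univ, smul_eq_mul]
    calc _ ≤ ∑ _y : V n, Fintype.card (Fin t → V n → ZMod p) :=
          Finset.sum_le_sum fun y _ => hbad y
      _ = _ := by
          rw [Finset.sum_const, Finset.card_univ, smul_eq_mul, mul_comm]
          congr 1
          simp
  obtain ⟨w, _, hw⟩ := Finset.exists_le_of_sum_le Finset.univ_nonempty hsum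
  exact ⟨g w, hg w, hw⟩

end Pool.Agent.H281C
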