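import Mathlib
import Pool.Agent.H281C.Cov

/-!
From the approximation of varieties to functions which are supported in a set `S`.
-/

namespace Pool.Agent.H281C

open Finset Pool.Agent.W856.Corner

variable {n p k q N T : ℕ} [Fact p.Prime]

open scoped Classical in
/-- approximation of the indicator function of a set of the class -/
theorem approx_modSum {S : Set (V n)} (hS : ModSum p k q N S) (t : ℕ) :
    ∃ G ∈ LK (ZMod p) n (q * ((p - 1) * (t * ((p - 1) * k)))),
      (univ.filter fun y => G y ≠ if y ∈ S then 1 else 0).card * 2 ^ t ≤ N * 2 ^ n := by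
  obtain ⟨Z, c, R, hZ, hS⟩ := hS
  choose g hg hgE using fun i => approx_variety (hZ i) t
  let u : Fin q → V n → ZMod p := fun j => ∑ i, c j i • g i
  have hu : ∀ j, u j ∈ LK (ZMod p) n (t * ((p - 1) * k)) := fun j =>
    Submodule.sum_mem _ fun i _ => Submodule.smul_mem _ _ (hg i)
  let G : V n → ZMod p := ∑ r ∈ univ.filter (fun r : Fin q → ZMod p => r ∈ R),
    ∏ j : Fin q, (1 - (u j - fun _ : V n => r j) ^ (p - 1))
  have hG : G ∈ LK (ZMod p) n (q * ((p - 1) * (t * ((p - 1) * k)))) := by
    refine Submodule.sum_mem _ fun r _ => ?_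
    have h3 := LK_prod (K := ZMod p) (n := n) (Finset.univ : Finset (Fin q))
      (fun _ => (p - 1) * (t * ((p - 1) * k)))
      (fun j => 1 - (u j - fun _ : V n => r j) ^ (p - 1)) (fun j _ =>
        Submodule.sub_mem _ (LK_one _) (LK_pow _ (Submodule.sub_mem _ (hu j) (LK_const _ _))))
    simpa using h3
  have hval : ∀ y, (∀ i, g i y = if y ∈ Z i then 1 else 0) → G y = if y ∈ S then 1 else 0 := by
    intro y hy
    have hu' : ∀ j, u j y = ∑ i, c j i * (if y ∈ Z i then 1 else 0) := by
      intro j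
      show (∑ i, c j i • g i) y = _
      rw [Finset.sum_apply]
      refine Finset.sum_congr rfl fun i _ => ?_
      rw [Pi.smul_apply, smul_eq_mul, hy i]
    have hterm : ∀ r : Fin q → ZMod p, (∏ j : Fin q, (1 - (u j - fun _ : V n => r j) ^ (p - 1))) y =
        if (fun j => u j y) = r then 1 else 0 := by
      intro r
      rw [Finset.prod_apply]
      have h2 : ∀ j : Fin q, (1 - (u j - fun _ : V n => r j) ^ (p - 1) : V n → ZMod p) y =
          if u j y = r j then (1 : ZMod p) else 0 := by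
        intro j
        rw [Pi.sub_apply, Pi.pow_apply, Pi.one_apply, Pi.sub_apply, ← fermat]
        by_cases h : u j y = r j
        · rw [if_pos (sub_eq_zero.2 h), if_pos h]
        · rw [if_neg (fun h' => h (sub_eq_zero.1 h')), if_neg h]
      rw [Finset.prod_congr rfl fun j _ => h2 j]
      by_cases h : (fun j => u j y) = r
      · rw [if_pos h]
        exact Finset.prod_eq_one fun j _ => if_pos (congrFun h j)
      · rw [if_neg h]
        obtain ⟨j, hj⟩ := Function.ne_iff.1 h
        exact Finset.prod_eq_zero (Finset.mem_univ j) (if_neg hj)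
    show (∑ r ∈ univ.filter (fun r : Fin q → ZMod p => r ∈ R),
      ∏ j : Fin q, (1 - (u j - fun _ : V n => r j) ^ (p - 1))) y = _
    rw [Finset.sum_apply, Finset.sum_congr rfl fun r _ => hterm r, Finset.sum_ite_eq]
    have e : (fun j => u j y) = fun j => ∑ i, c j i * (if y ∈ Z i then 1 else 0) :=
      funext fun j => hu' j
    by_cases h : y ∈ S
    · rw [if_pos h, if_pos]
      rw [Finset.mem_filter]
      refine ⟨Finset.mem_univ _, ?_⟩
      rw [e]
      exact (hS y).1 h
    · rw [if_neg h, if_neg]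
      rw [Finset.mem_filter]
      rintro ⟨_, h'⟩
      rw [e] at h'
      exact h ((hS y).2 h')
  refine ⟨G, hG, ?_⟩
  have hsub : (univ.filter fun y => G y ≠ if y ∈ S then 1 else 0) ⊆
      (univ : Finset (Fin N)).biUnion fun i =>
        univ.filter fun y => g i y ≠ if y ∈ Z i then 1 else 0 := by
    intro y hy
    rw [Finset.mem_filter] at hy
    rw [Finset.mem_biUnion]
    by_contra hc
    push Not at hc
    refine hy.2 (hval y fun i => ?_)
    have := hc i (Finset.mem_univ i)
    rw [Finset.mem_filter] at this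
    push Not at this
    exact this (Finset.mem_univ _)
  calc _ ≤ (∑ i : Fin N, (univ.filter fun y => g i y ≠ if y ∈ Z i then 1 else 0).card) * 2 ^ t :=
        Nat.mul_le_mul_right _ ((Finset.card_le_card hsub).trans Finset.card_biUnion_le)
    _ = ∑ i : Fin N, (univ.filter fun y => g i y ≠ if y ∈ Z i then 1 else 0).card * 2 ^ t := by
        rw [Finset.sum_mul]
    _ ≤ ∑ _i : Fin N, 2 ^ n := Finset.sum_le_sum fun i _ => hgE i
    _ = N * 2 ^ n := by simp

/-- A low degree function supported in `S` whose support contains a large part of `S`. -/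
lemma piece' {S : Set (V n)} (h : ModSum p k q N S) (m D : ℕ) :
    ∃ g ∈ LK (ZMod p) n (2 * m * (q * ((p - 1) * ((p - 1) * k))) + D),
      (∀ y, g y ≠ 0 → y ∈ S) ∧ ∃ z : ℕ,
        z * (∑ i ∈ range (D + 1), n.choose i) * 4 ^ m ≤ N * (2 ^ n * 2 ^ n) ∧
        S.ncard ≤ z + 2 * (univ.filter fun y => g y ≠ 0).card := by
  classical
  obtain ⟨G, hG, hE⟩ := approx_modSum h (2 * m)
  set E := univ.filter fun y => G y ≠ if y ∈ S then 1 else 0 with hEdef
  set W : Finset (V n) := univ.filter fun y => y ∈ S with hW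
  obtain ⟨h', hh', hvan, z, hz1, hz2⟩ := exists_vanish (K := ZMod p) D E W
  have hkey : ∀ y, (G * h') y ≠ 0 ↔ y ∈ W ∧ h' y ≠ 0 := by
    intro y
    rw [Pi.mul_apply, mul_ne_zero_iff, hW, Finset.mem_filter]
    have hne : h' y ≠ 0 → G y = if y ∈ S then 1 else 0 := by
      intro h2
      have h3 : y ∉ E := fun hy => h2 (hvan y hy)
      rw [hEdef, Finset.mem_filter] at h3
      push Not at h3
      exact h3 (Finset.mem_univ _)
    constructor
    · rintro ⟨h1, h2⟩
      refine ⟨⟨Finset.mem_univ _, ?_⟩, h2⟩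
      by_contra hc
      rw [hne h2, if_neg hc] at h1
      exact h1 rfl
    · rintro ⟨h1, h2⟩
      refine ⟨?_, h2⟩
      rw [hne h2, if_pos h1.2]
      exact one_ne_zero
  have hdeg : q * ((p - 1) * (2 * m * ((p - 1) * k))) =
      2 * m * (q * ((p - 1) * ((p - 1) * k))) := by ring
  rw [hdeg] at hG
  refine ⟨G * h', LK_mul hG hh', ?_, z, ?_, ?_⟩
  · intro y hy
    have := ((hkey y).1 hy).1
    rw [hW, Finset.mem_filter] at this
    exact this.2
  · have h4 : (2 : ℕ) ^ (2 * m) = 4 ^ m := by rw [pow_mul]; norm_num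
    rw [h4] at hE
    calc z * (∑ i ∈ range (D + 1), n.choose i) * 4 ^ m ≤ 2 ^ n * E.card * 4 ^ m :=
        Nat.mul_le_mul_right _ hz1
      _ = 2 ^ n * (E.card * 4 ^ m) := by ring
      _ ≤ 2 ^ n * (N * 2 ^ n) := Nat.mul_le_mul_left _ hE
      _ = N * (2 ^ n * 2 ^ n) := by ring
  · have e1 : S.ncard = W.card := by
      rw [← Set.ncard_coe_finset]
      congr 1
      ext y
      rw [Finset.mem_coe, hW, Finset.mem_filter]
      simp
    have e2 : (univ.filter fun y => (G * h') y ≠ 0) = W.filter fun y => h' y ≠ 0 := by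
      ext y
      rw [Finset.mem_filter, Finset.mem_filter, hkey y]
      simp
    rw [e1, e2]
    exact hz2

/-- The inequality behind the bound. -/
theorem modSum_ineq (A : Finset (V n × V n)) (hA : CornerFree A) (L : V n → Set (V n))
    (hL : IsLines A L) (hN : 1 ≤ N)
    (h : ∀ x, ∃ F : Fin T → Set (V n), (∀ i, ModSum p k q N (F i)) ∧ L x = ⋃ i, F i)
    (m D : ℕ) :
    (A.card : ℝ) ≤ (T * N : ℝ) * (2 * 2 ^ n * (∑ i ∈ range (2 * m *
      (q * ((p - 1) * ((p - 1) * k))) + D + 1), (n.choose i : ℝ)) +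
      2 ^ n * (4 ^ n / (4 ^ m * ∑ i ∈ range (D + 1), (n.choose i : ℝ)))) := by
  classical
  obtain ⟨A', hA', hc, hL'⟩ := lines_reduce A hA L hL
  choose F hF hLF using h
  set M := q * ((p - 1) * ((p - 1) * k)) with hM
  have hpc := fun x i => piece' (hF x i) m D
  rw [← hM] at hpc
  choose g hg1 hg2 z hz1 hz2 using hpc
  set SD : ℕ := ∑ i ∈ range (D + 1), n.choose i with hSD
  have hSDpos : 0 < SD := by
    rw [hSD]
    refine Finset.sum_pos' (fun _ _ => Nat.zero_le _) ⟨0, by simp, by simp⟩
  have hN' : (1 : ℝ) ≤ N := by exact_mod_cast hN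
  -- the columns
  have hrank : ∀ i : Fin T, ∑ x, (univ.filter fun y => g x i y ≠ 0).card ≤
      2 ^ n * ∑ j ∈ range (2 * m * M + D + 1), n.choose j := by
    intro i
    have h1 := core_rank A' hA' (LK (ZMod p) n (2 * m * M + D)) (fun x => g x i)
      (fun x => hg1 x i) (fun x y hxy => by
        rw [← hL', hLF]
        exact Set.mem_iUnion.2 ⟨i, hg2 x i y hxy⟩)
    have h2 : Fintype.card (V n) = 2 ^ n := by simp
    rw [h2] at h1
    exact h1.trans (Nat.mul_le_mul_left _ (finrank_LK n _))
  have hzr : ∀ x i, (z x i : ℝ) ≤ N * (4 ^ n / (4 ^ m * SD)) := by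
    intro x i
    have hpos : (0 : ℝ) < 4 ^ m * SD := by
      have : (0 : ℝ) < SD := by exact_mod_cast hSDpos
      positivity
    rw [← mul_div_assoc, le_div_iff₀ hpos]
    have h1 : ((z x i * SD * 4 ^ m : ℕ) : ℝ) ≤ ((N * (2 ^ n * 2 ^ n) : ℕ) : ℝ) := by
      exact_mod_cast hz1 x i
    push_cast at h1
    have h2 : (4 : ℝ) ^ n = 2 ^ n * 2 ^ n := by
      rw [← mul_pow]; norm_num
    rw [h2]
    linarith
  have hrow : ∀ x, ((univ.filter fun y => (x, y) ∈ A').card : ℝ) ≤
      ∑ i : Fin T, (N * (4 ^ n / (4 ^ m * SD)) +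
        2 * ((univ.filter fun y => g x i y ≠ 0).card : ℝ)) := by
    intro x
    have e1 : (univ.filter fun y => (x, y) ∈ A').card = (⋃ i, F x i).ncard := by
      rw [← Set.ncard_coe_finset, ← hLF]
      congr 1
      ext y
      simp [hL']
    have e2 : (⋃ i, F x i).ncard ≤ ∑ i : Fin T, (F x i).ncard := by
      have := Finset.set_ncard_biUnion_le (univ : Finset (Fin T)) (fun i => F x i)
      simpa using this
    rw [e1]
    calc (((⋃ i, F x i).ncard : ℕ) : ℝ) ≤ ((∑ i : Fin T, (F x i).ncard : ℕ) : ℝ) :=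
          Nat.cast_le.2 e2
      _ = ∑ i : Fin T, ((F x i).ncard : ℝ) := by push_cast; rfl
      _ ≤ _ := by
          refine Finset.sum_le_sum fun i _ => ?_
          have h1 : ((F x i).ncard : ℝ) ≤
              z x i + 2 * ((univ.filter fun y => g x i y ≠ 0).card : ℝ) := by
            exact_mod_cast hz2 x i
          have := hzr x i
          linarith
  have hcardA : (A'.card : ℝ) = ∑ x, ((univ.filter fun y => (x, y) ∈ A').card : ℝ) := by
    have h1 : A'.card = ∑ x : V n, (univ.filter fun y => (x, y) ∈ A').card := by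
      rw [Finset.card_eq_sum_card_fiberwise (f := Prod.fst) (t := univ)
        (fun _ _ => Finset.mem_coe.2 (Finset.mem_univ _))]
      refine Finset.sum_congr rfl fun x _ => ?_
      refine Finset.card_bij' (fun q _ => q.2) (fun y _ => (x, y)) ?_ ?_ ?_ ?_
      · rintro ⟨a, b⟩ hq
        rw [Finset.mem_filter] at hq ⊢
        obtain ⟨h1, h2⟩ := hq
        simp only at h2
        subst h2
        exact ⟨Finset.mem_univ _, h1⟩
      · intro y hy
        rw [Finset.mem_filter] at hy ⊢
        exact ⟨hy.2, rfl⟩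
      · rintro ⟨a, b⟩ hq
        rw [Finset.mem_filter] at hq
        have h2 := hq.2
        simp only at h2
        rw [h2]
      · intro y _; rfl
    rw [h1]; push_cast; rfl
  set S2 : ℝ := ∑ j ∈ range (2 * m * M + D + 1), (n.choose j : ℝ) with hS2
  have hS2nn : 0 ≤ S2 := Finset.sum_nonneg fun _ _ => Nat.cast_nonneg _
  rw [← hc, hcardA]
  calc _ ≤ ∑ x : V n, ∑ i : Fin T,
        (N * (4 ^ n / (4 ^ m * SD)) + 2 * ((univ.filter fun y => g x i y ≠ 0).card : ℝ)) :=
        Finset.sum_le_sum fun x _ => hrow x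
    _ = ∑ i : Fin T, ∑ x : V n,
        (N * (4 ^ n / (4 ^ m * SD)) + 2 * ((univ.filter fun y => g x i y ≠ 0).card : ℝ)) :=
        Finset.sum_comm
    _ ≤ ∑ _i : Fin T, (2 ^ n * (N * (4 ^ n / (4 ^ m * SD))) + 2 * (2 ^ n * S2)) := by
        refine Finset.sum_le_sum fun i _ => ?_
        rw [Finset.sum_add_distrib, Finset.sum_const, Finset.card_univ, ← Finset.mul_sum,
          nsmul_eq_mul]
        have h1 : ((∑ x, (univ.filter fun y => g x i y ≠ 0).card : ℕ) : ℝ) ≤
            ((2 ^ n * ∑ j ∈ range (2 * m * M + D + 1), n.choose j : ℕ) : ℝ) :=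
          Nat.cast_le.2 (hrank i)
        push_cast at h1
        have h2 : ((Fintype.card (V n) : ℕ) : ℝ) = 2 ^ n := by simp
        rw [h2]
        linarith
    _ ≤ ∑ _i : Fin T, (N * (2 ^ n * (4 ^ n / (4 ^ m * SD))) + N * (2 * (2 ^ n * S2))) := by
        refine Finset.sum_le_sum fun i _ => ?_
        have h1 : 2 * (2 ^ n * S2) ≤ N * (2 * (2 ^ n * S2)) :=
          le_mul_of_one_le_left (by positivity) hN'
        linarith
    _ = _ := by
        rw [Finset.sum_const, Finset.card_univ, Fintype.card_fin, nsmul_eq_mul, hSD]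
        push_cast
        ring

end Pool.Agent.H281C
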