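import Mathlib
import Pool.Agent.H281C.Piece

/-!
The bound, and the version for sets decided on `2 n` bits.
-/

namespace Pool.Agent.H281C

open Finset Pool.Agent.W856.Corner

/-- restriction of a variety to a row -/
lemma variety_restrict {p k n : ℕ} (x : V n) {Z : Set (V (n + n))}
    (h : IsVariety p k Z) : IsVariety p k {y : V n | Fin.append x y ∈ Z} := by
  obtain ⟨Q, hQ, hZ⟩ := h
  let σ : Fin (n + n) → MvPolynomial (Fin n) (ZMod p) :=
    Fin.addCases (fun a => MvPolynomial.C (if x a = 1 then 1 else 0)) (fun b => MvPolynomial.X b)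
  have hσ : ∀ i, (σ i).totalDegree ≤ 1 := by
    intro i
    refine Fin.addCases (fun a => ?_) (fun b => ?_) i
    · simp only [σ, Fin.addCases_left, MvPolynomial.totalDegree_C]
      exact Nat.zero_le _
    · simp only [σ, Fin.addCases_right]
      rw [MvPolynomial.X]
      exact (MvPolynomial.totalDegree_monomial_le _ _).trans (by simp)
  let ρ : MvPolynomial (Fin (n + n)) (ZMod p) → MvPolynomial (Fin n) (ZMod p) := fun P =>
    ∑ m ∈ P.support, MvPolynomial.C (P.coeff m) * ∏ i ∈ m.support, σ i ^ m i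
  have hdeg : ∀ P, (ρ P).totalDegree ≤ P.totalDegree := by
    intro P
    refine MvPolynomial.totalDegree_finsetSum_le fun m hm => ?_
    refine (MvPolynomial.totalDegree_mul _ _).trans ?_
    rw [MvPolynomial.totalDegree_C, zero_add]
    refine (MvPolynomial.totalDegree_finsetProd _ _).trans ?_
    refine le_trans ?_ (MvPolynomial.le_totalDegree hm)
    rw [Finsupp.sum]
    refine Finset.sum_le_sum fun i _ => ?_
    refine (MvPolynomial.totalDegree_pow _ _).trans ?_
    exact (Nat.mul_le_mul_left _ (hσ i)).trans (by simp)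
  have heval : ∀ (P : MvPolynomial (Fin (n + n)) (ZMod p)) (y : V n),
      MvPolynomial.eval (fun i => if y i = 1 then (1 : ZMod p) else 0) (ρ P) =
      MvPolynomial.eval (fun i => if (Fin.append x y) i = 1 then (1 : ZMod p) else 0) P := by
    intro P y
    rw [MvPolynomial.eval_eq (fun i => if (Fin.append x y) i = 1 then (1 : ZMod p) else 0) P]
    show MvPolynomial.eval _ (∑ m ∈ P.support, MvPolynomial.C (P.coeff m) *
      ∏ i ∈ m.support, σ i ^ m i) = _
    rw [map_sum]
    refine Finset.sum_congr rfl fun m _ => ?_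
    rw [map_mul, MvPolynomial.eval_C, map_prod]
    congr 1
    refine Finset.prod_congr rfl fun i _ => ?_
    rw [map_pow]
    congr 1
    refine Fin.addCases (fun a => ?_) (fun b => ?_) i
    · simp only [σ, Fin.addCases_left, MvPolynomial.eval_C, Fin.append_left]
    · simp only [σ, Fin.addCases_right, MvPolynomial.eval_X, Fin.append_right]
  refine ⟨ρ '' Q, ?_, fun y => ?_⟩
  · rintro _ ⟨P, hP, rfl⟩
    exact (hdeg P).trans (hQ P hP)
  · rw [Set.forall_mem_image, Set.mem_ofPred_eq, hZ]
    exact forall₂_congr fun P _ => by rw [heval P y]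

lemma modSum_restrict {p k q N n : ℕ} (x : V n) {S : Set (V (n + n))}
    (h : ModSum p k q N S) : ModSum p k q N {y : V n | Fin.append x y ∈ S} := by
  obtain ⟨Z, c, R, hZ, hS⟩ := h
  exact ⟨fun i => {y : V n | Fin.append x y ∈ Z i}, c, R, fun i => variety_restrict x (hZ i),
    fun y => hS (Fin.append x y)⟩

/-- The bound for corner-free sets. -/
theorem modSum_bound {p k q N T n : ℕ} (hp : p.Prime) (hk : 1 ≤ k) (hq : 1 ≤ q) (hN : 1 ≤ N)
    (A : Finset (V n × V n)) (hA : CornerFree A) (L : V n → Set (V n)) (hL : IsLines A L)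
    (h : ∀ x, ∃ F : Fin T → Set (V n), (∀ i, ModSum p k q N (F i)) ∧ L x = ⋃ i, F i) :
    (A.card : ℝ) ≤ 40000 * (T * N) * ((q * ((p - 1) * ((p - 1) * k)) : ℕ) : ℝ) ^ 2 * 4 ^ n *
      Real.exp (-(n : ℝ) / (12800 * ((q * ((p - 1) * ((p - 1) * k)) : ℕ) : ℝ) ^ 2)) := by
  have : Fact p.Prime := ⟨hp⟩
  set M := q * ((p - 1) * ((p - 1) * k)) with hM
  have hM1 : 1 ≤ M := by
    have h2 := hp.two_le
    exact Nat.mul_pos hq (Nat.mul_pos (by omega) (Nat.mul_pos (by omega) hk))
  refine numerics n M hM1 (T * N) A.card (by positivity) ?_ fun m D =>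
    modSum_ineq A hA L hL hN h m D
  -- the trivial bound
  rcases Nat.eq_zero_or_pos T with h0 | h0
  · subst h0
    have : A = ∅ := by
      have hempty : ∀ x, L x = ∅ := by
        intro x
        obtain ⟨F, _, h2⟩ := h x
        rw [h2]
        simp
      rw [Finset.eq_empty_iff_forall_notMem]
      rintro ⟨a, b⟩ hab
      rcases hL with hL | hL | hL
      · have : b ∈ L a := by rw [hL]; exact hab
        rw [hempty] at this; exact this
      · have : a ∈ L b := by rw [hL]; exact hab
        rw [hempty] at this; exact this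
      · have h3 : b ∈ L (a + b) := by
          rw [hL]
          have : a + b + b = a := by
            rw [add_assoc]
            have : b + b = 0 := by funext i; exact CharTwo.add_self_eq_zero _
            rw [this, add_zero]
          show (a + b + b, b) ∈ A
          rw [this]; exact hab
        rw [hempty] at h3; exact h3
    rw [this]; simp
  · have h1 : (A.card : ℝ) ≤ 4 ^ n := by
      have h2 : A.card ≤ Fintype.card (V n × V n) := Finset.card_le_univ A
      have h3 : Fintype.card (V n × V n) = 4 ^ n := by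
        rw [Fintype.card_prod]
        have : Fintype.card (V n) = 2 ^ n := by simp
        rw [this, ← mul_pow]; norm_num
      rw [h3] at h2
      exact_mod_cast h2
    have h2 : (1 : ℝ) ≤ T := by exact_mod_cast h0
    have h3 : (1 : ℝ) ≤ N := by exact_mod_cast hN
    have h4 : (1 : ℝ) ≤ T * N := by nlinarith
    have h5 : (0 : ℝ) < 4 ^ n := by positivity
    nlinarith

/-- The version for sets decided on `2 n` bits. -/
theorem modSum_bound' {p k q N T n : ℕ} (hp : p.Prime) (hk : 1 ≤ k) (hq : 1 ≤ q) (hN : 1 ≤ N)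
    (A : Finset (V n × V n)) (hA : CornerFree A)
    (h : ∃ F : Fin T → Set (V (n + n)), (∀ i, ModSum p k q N (F i)) ∧
      ∀ x y, (x, y) ∈ A ↔ ∃ i, Fin.append x y ∈ F i) :
    (A.card : ℝ) ≤ 40000 * (T * N) * ((q * ((p - 1) * ((p - 1) * k)) : ℕ) : ℝ) ^ 2 * 4 ^ n *
      Real.exp (-(n : ℝ) / (12800 * ((q * ((p - 1) * ((p - 1) * k)) : ℕ) : ℝ) ^ 2)) := by
  obtain ⟨F, hF, hAF⟩ := h
  refine modSum_bound hp hk hq hN A hA (fun x => {y | (x, y) ∈ A}) (Or.inl fun _ => rfl)
    fun x => ?_
  refine ⟨fun i => {y | Fin.append x y ∈ F i}, fun i => modSum_restrict x (hF i), ?_⟩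
  ext y
  rw [Set.mem_ofPred_eq, hAF, Set.mem_iUnion]
  rfl

end Pool.Agent.H281C
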